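import Pool.Agent.Helper15.UL.GoalsC
import Pool.Agent.Helper15.UL.Basic4

/-! # MP_57a173_lc: packet MES (measurability) -/

noncomputable section

namespace UL.PkMES

open MeasureTheory UL

variable {I : Type}

theorem meas_bit (ξ : I) (i : ℕ) : Measurable (fun z : Pt I => (z ξ : ℕ → Bool) i) :=
  (measurable_pi_apply i).comp (measurable_subtype_coe.comp (measurable_pi_apply ξ))

theorem meas_B (τ : I → Str) (h : (Sp τ).Finite) : MeasurableSet (B τ) := by
  have e : B τ = ⋂ ξ ∈ Sp τ, ⋂ (i : ℕ) (hi : i < (τ ξ).length),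
      {z : Pt I | (z ξ : ℕ → Bool) i = (τ ξ)[i]} := by
    ext z
    simp only [B, Pre, Set.mem_ofPred_eq, Set.mem_iInter]
    constructor
    · intro hz ξ _ i hi
      exact (hz ξ i hi).symm
    · intro hz ξ i hi
      have hs : ξ ∈ Sp τ := by
        intro h0
        rw [h0] at hi
        simp at hi
      exact (hz ξ hs i hi).symm
  rw [e]
  refine MeasurableSet.biInter h.countable fun ξ _ => ?_
  refine MeasurableSet.iInter fun i => MeasurableSet.iInter fun hi => ?_
  exact meas_bit ξ i (measurableSet_singleton _)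

theorem meas_LC [LinearOrder I] {β : Type} (f : Pt I → β) (h : LC Set.univ f) (s : Set β) :
    MeasurableSet (f ⁻¹' s) := by
  obtain ⟨A, -, hc, h⟩ := LC_iff.1 h
  have hC : {τ : I → Str | ((Sp τ).Finite ∧ Sp τ ⊆ A) ∧ B τ ⊆ f ⁻¹' s}.Countable :=
    (countable_cones A hc).mono fun τ hτ => hτ.1
  have e : f ⁻¹' s = ⋃ τ ∈ {τ : I → Str | ((Sp τ).Finite ∧ Sp τ ⊆ A) ∧ B τ ⊆ f ⁻¹' s}, B τ := by
    ext z
    simp only [Set.mem_iUnion]
    constructor
    · intro hz
      obtain ⟨τ, h1, h2, h3, h4⟩ := h z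
      refine ⟨τ, ⟨⟨h1, h2⟩, fun z' hz' => ?_⟩, h3⟩
      show f z' ∈ s
      rw [h4 z' hz']
      exact hz
    · rintro ⟨τ, ⟨-, h4⟩, h3⟩
      exact h4 h3
  rw [e]
  exact MeasurableSet.biUnion hC fun τ hτ => meas_B τ hτ.1.1

theorem meas_to {f : Pt I → Pt I}
    (h : ∀ ξ i, Measurable (fun z => (f z ξ : ℕ → Bool) i)) : Measurable f := by
  refine measurable_pi_iff.2 fun ξ => ?_
  have h1 : Measurable (fun z => (f z ξ : ℕ → Bool)) := measurable_pi_iff.2 fun i => h ξ i
  exact h1.subtype_mk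

theorem thm : G_MES := by
  intro I _
  refine ⟨fun β f h s => meas_LC f h s, fun f hf => ?_, fun τ hτ => ?_⟩
  · refine meas_to fun ξ i => ?_
    obtain ⟨A, hA, h⟩ := hf.cont
    have hLC : LC Set.univ (fun z => (f z ξ : ℕ → Bool) i) := by
      classical
      refine ⟨A ∪ {ξ}, Set.subset_univ _, hA.union (Set.countable_singleton ξ), fun z => ?_⟩
      obtain ⟨F', n', h1, h2⟩ := h {ξ} (i + 1) z
      refine ⟨F', fun η hη => ?_, n', fun z' hz' => ?_⟩
      · rcases (h1 η hη).1 with h3 | h3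
        · exact Or.inl h3
        · exact Or.inr (by simpa using h3)
      · exact h2 z' hz' ξ (by simp) i (by omega)
    intro s _
    exact meas_LC _ hLC s
  · refine meas_to fun ξ i => ?_
    exact meas_bit ξ (i + (τ ξ).length)

end UL.PkMES
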